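import Pool.Agent.Helper65.CS.Goals

/-!
# Packet CS-WID: union bound for wide terms
-/

namespace Pool.Agent.Helper49.CS

open Pool.Agent.Helper78.DT Pool.Agent.Helper65.CS
open scoped Classical

theorem vr_card {V : Type} [DecidableEq V] {T B : Tm V} (hT : Con T) (hB : B ⊆ T) :
    (vr B).card = B.card := by
  unfold vr
  refine Finset.card_image_of_injOn ?_
  rintro ⟨v, b⟩ hp ⟨v', b'⟩ hq h
  have h1 : v = v' := h
  subst h1
  have hp' : (v, b) ∈ T := hB hp
  have hq' : (v, b') ∈ T := hB hq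
  have := hT v
  cases b <;> cases b'
  · rfl
  · exact absurd ⟨hq', hp'⟩ this
  · exact absurd ⟨hp', hq'⟩ this
  · rfl

theorem wid_one {V : Type} [DecidableEq V] {Ω : Type} [Fintype Ω] (S : Ω → Finset V)
    (T : Tm V) (w u0 : ℕ) (g : ℝ) (hg : 0 ≤ g) (hw : T.card ≤ w) (hT : Con T)
    (hS : ∀ A : Finset V, A.card = u0 → pr (fun ω => A ⊆ S ω) ≤ g ^ u0) :
    pr (fun ω => u0 ≤ (T.filter fun p => p.1 ∈ S ω).card) ≤ ((w : ℝ) * g) ^ u0 := by
  have h1 : pr (fun ω => u0 ≤ (T.filter fun p => p.1 ∈ S ω).card) ≤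
      pr (fun ω => ∃ B ∈ T.powersetCard u0, vr B ⊆ S ω) := by
    refine pr_mono fun ω h => ?_
    obtain ⟨B, hB, hc⟩ := Finset.exists_subset_card_eq h
    refine ⟨B, ?_, ?_⟩
    · rw [Finset.mem_powersetCard]
      exact ⟨hB.trans (Finset.filter_subset _ _), hc⟩
    · intro v hv
      unfold vr at hv
      obtain ⟨p, hp, rfl⟩ := Finset.mem_image.1 hv
      exact (Finset.mem_filter.1 (hB hp)).2
  refine h1.trans ((pr_exists_le (T.powersetCard u0) (fun B ω => vr B ⊆ S ω)).trans ?_)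
  have h2 : ∑ B ∈ T.powersetCard u0, pr (fun ω => vr B ⊆ S ω) ≤
      ∑ B ∈ T.powersetCard u0, g ^ u0 := by
    refine Finset.sum_le_sum fun B hB => ?_
    rw [Finset.mem_powersetCard] at hB
    refine hS (vr B) ?_
    rw [vr_card hT hB.1, hB.2]
  refine h2.trans ?_
  rw [Finset.sum_const, Finset.card_powersetCard, nsmul_eq_mul, mul_pow]
  refine mul_le_mul_of_nonneg_right ?_ (pow_nonneg hg _)
  calc ((T.card.choose u0 : ℕ) : ℝ) ≤ ((T.card ^ u0 : ℕ) : ℝ) := by
        exact_mod_cast Nat.choose_le_pow _ _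
    _ ≤ ((w ^ u0 : ℕ) : ℝ) := by
        exact_mod_cast Nat.pow_le_pow_left hw u0
    _ = (w : ℝ) ^ u0 := by push_cast; rfl

theorem wid : WidStmt := by
  intro V _ Ω _ S f w u0 g hg hW hC hS
  induction f with
  | nil =>
    have : pr (fun ω : Ω => ∃ e ∈ ([] : DL V), u0 ≤ (e.1.filter fun p => p.1 ∈ S ω).card) = 0 := by
      unfold pr av
      simp
    rw [this]
    simp
  | cons e f ih =>
    have hW' : Wid w f := fun e' he' => hW e' (List.mem_cons_of_mem _ he')
    have hC' : CL f := fun e' he' => hC e' (List.mem_cons_of_mem _ he')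
    have h1 := ih hW' hC'
    have h2 := wid_one S e.1 w u0 g hg (hW e List.mem_cons_self) (hC e List.mem_cons_self) hS
    have h3 : pr (fun ω => ∃ e' ∈ e :: f, u0 ≤ (e'.1.filter fun p => p.1 ∈ S ω).card) ≤
        pr (fun ω => u0 ≤ (e.1.filter fun p => p.1 ∈ S ω).card) +
        pr (fun ω => ∃ e' ∈ f, u0 ≤ (e'.1.filter fun p => p.1 ∈ S ω).card) := by
      refine pr_le_add_of_imp fun ω h => ?_
      obtain ⟨e', he', h⟩ := h
      rcases List.mem_cons.1 he' with rfl | he'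
      · exact Or.inl h
      · exact Or.inr ⟨e', he', h⟩
    refine h3.trans ((add_le_add h2 h1).trans (le_of_eq ?_))
    rw [List.length_cons]
    push_cast
    ring

end Pool.Agent.Helper49.CS
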